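import Mathlib
import Pool.Agent.R364.Gun.Main

/-!
MP_290120_co, Q1 (Pearce's formula for the gunport problem): the formula fails for the
`16 × 14` board.  The maximum number of holes there is `72`, while the formula gives `74`.
-/

set_option autoImplicit false

open Finset

namespace Pool.Agent.Results.MP_290120_co.PearceFormulaFails

/-- the cells of the `m × n` board -/
def board (m n : ℕ) : Finset (ℕ × ℕ) := Finset.range m ×ˢ Finset.range n

/-- two cells share an edge -/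
def Adj (p q : ℕ × ℕ) : Prop :=
  (p.1 = q.1 ∧ (p.2 + 1 = q.2 ∨ q.2 + 1 = p.2)) ∨ (p.2 = q.2 ∧ (p.1 + 1 = q.1 ∨ q.1 + 1 = p.1))

instance (p q : ℕ × ℕ) : Decidable (Adj p q) := by unfold Adj; infer_instance

/-- the holes: the cells of the board not covered by a domino of `D` -/
def holes (m n : ℕ) (D : Finset (Finset (ℕ × ℕ))) : Finset (ℕ × ℕ) :=
  (board m n).filter (fun p => ∀ d ∈ D, p ∉ d)

/-- gunport configurations: sets `D` of pairwise disjoint dominoes (pairs of cells of the board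
sharing an edge) such that no two holes share an edge -/
structure IsGunport (m n : ℕ) (D : Finset (Finset (ℕ × ℕ))) : Prop where
  domino : ∀ d ∈ D, ∃ p ∈ board m n, ∃ q ∈ board m n, Adj p q ∧ d = {p, q}
  disj : ∀ d ∈ D, ∀ e ∈ D, d ≠ e → Disjoint d e
  isolated : ∀ p ∈ holes m n D, ∀ q ∈ holes m n D, ¬ Adj p q

/-- the possible numbers of holes -/
def holeCounts (m n : ℕ) : Set ℕ := {h | ∃ D, IsGunport m n D ∧ (holes m n D).card = h}

/-- Pearce's formula for boards with no side divisible by `3` -/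
def pearce (m n : ℕ) : ℕ := if m % 3 = n % 3 then (m * n - 4) / 3 else (m * n - 2) / 3

/-- the dominoes of a configuration with `72` holes -/
def cds : List ((ℕ × ℕ) × (ℕ × ℕ)) := [
  ((0, 1), (0, 2)), ((0, 4), (1, 4)), ((0, 6), (1, 6)), ((0, 8), (1, 8)), ((0, 10), (1, 10)),
  ((0, 12), (1, 12)), ((1, 0), (2, 0)), ((1, 2), (1, 3)), ((1, 5), (2, 5)), ((1, 7), (2, 7)),
  ((1, 9), (2, 9)), ((1, 11), (2, 11)), ((1, 13), (2, 13)), ((2, 1), (3, 1)), ((2, 3), (3, 3)),
  ((3, 2), (4, 2)), ((3, 4), (4, 4)), ((3, 6), (4, 6)), ((3, 8), (4, 8)), ((3, 10), (4, 10)),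
  ((3, 12), (4, 12)), ((4, 0), (5, 0)), ((4, 5), (5, 5)), ((4, 7), (5, 7)), ((4, 9), (5, 9)),
  ((4, 11), (5, 11)), ((4, 13), (5, 13)), ((5, 1), (6, 1)), ((5, 3), (6, 3)), ((6, 2), (7, 2)),
  ((6, 4), (7, 4)), ((6, 6), (7, 6)), ((6, 8), (7, 8)), ((6, 10), (7, 10)), ((6, 12), (7, 12)),
  ((7, 0), (8, 0)), ((7, 5), (8, 5)), ((7, 7), (8, 7)), ((7, 9), (8, 9)), ((7, 11), (8, 11)),
  ((7, 13), (8, 13)), ((8, 1), (9, 1)), ((8, 3), (9, 3)), ((9, 2), (10, 2)), ((9, 4), (10, 4)),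
  ((9, 6), (10, 6)), ((9, 8), (10, 8)), ((9, 10), (10, 10)), ((9, 12), (10, 12)),
  ((10, 0), (11, 0)), ((10, 5), (11, 5)), ((10, 7), (11, 7)), ((10, 9), (11, 9)),
  ((10, 11), (11, 11)), ((10, 13), (11, 13)), ((11, 1), (12, 1)), ((11, 3), (12, 3)),
  ((12, 2), (13, 2)), ((12, 4), (13, 4)), ((12, 6), (13, 6)), ((12, 8), (13, 8)),
  ((12, 10), (13, 10)), ((12, 11), (12, 12)), ((13, 0), (14, 0)), ((13, 5), (14, 5)),
  ((13, 7), (14, 7)), ((13, 9), (14, 9)), ((13, 12), (13, 13)), ((14, 1), (15, 1)),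
  ((14, 2), (14, 3)), ((14, 11), (14, 12)), ((15, 3), (15, 4)), ((15, 6), (15, 7)),
  ((15, 8), (15, 9)), ((15, 10), (15, 11)), ((15, 12), (15, 13))]

/-- its holes -/
def hls : List (ℕ × ℕ) := [
  (0, 0), (0, 3), (0, 5), (0, 7), (0, 9), (0, 11), (0, 13), (1, 1), (2, 2), (2, 4), (2, 6),
  (2, 8), (2, 10), (2, 12), (3, 0), (3, 5), (3, 7), (3, 9), (3, 11), (3, 13), (4, 1), (4, 3),
  (5, 2), (5, 4), (5, 6), (5, 8), (5, 10), (5, 12), (6, 0), (6, 5), (6, 7), (6, 9), (6, 11),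
  (6, 13), (7, 1), (7, 3), (8, 2), (8, 4), (8, 6), (8, 8), (8, 10), (8, 12), (9, 0), (9, 5),
  (9, 7), (9, 9), (9, 11), (9, 13), (10, 1), (10, 3), (11, 2), (11, 4), (11, 6), (11, 8),
  (11, 10), (11, 12), (12, 0), (12, 5), (12, 7), (12, 9), (12, 13), (13, 1), (13, 3), (13, 11),
  (14, 4), (14, 6), (14, 8), (14, 10), (14, 13), (15, 0), (15, 2), (15, 5)]

def D72 : Finset (Finset (ℕ × ℕ)) := (cds.map (fun x => ({x.1, x.2} : Finset (ℕ × ℕ)))).toFinset

theorem mem_D72 (d : Finset (ℕ × ℕ)) : d ∈ D72 ↔ ∃ x ∈ cds, {x.1, x.2} = d := by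
  unfold D72
  rw [List.mem_toFinset, List.mem_map]

theorem c1 : ∀ x ∈ cds, x.1 ∈ board 16 14 ∧ x.2 ∈ board 16 14 ∧ Adj x.1 x.2 := by
  decide +kernel

theorem c2 : ∀ x ∈ cds, ∀ y ∈ cds, x = y ∨
    (x.1 ≠ y.1 ∧ x.1 ≠ y.2 ∧ x.2 ≠ y.1 ∧ x.2 ≠ y.2) := by decide +kernel

theorem c3 : ∀ p ∈ hls, p ∈ board 16 14 ∧ ∀ x ∈ cds, p ≠ x.1 ∧ p ≠ x.2 := by decide +kernel

theorem c4 : ∀ i < 16, ∀ j < 14, (i, j) ∈ hls ∨ ∃ x ∈ cds, (i, j) = x.1 ∨ (i, j) = x.2 := by
  decide +kernel

theorem c5 : ∀ p ∈ hls, ∀ q ∈ hls, ¬ Adj p q := by decide +kernel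

theorem c6 : hls.Nodup ∧ hls.length = 72 := by decide +kernel

theorem holes_eq : holes 16 14 D72 = hls.toFinset := by
  ext p
  unfold holes
  rw [Finset.mem_filter, List.mem_toFinset]
  constructor
  · rintro ⟨hp, hd⟩
    obtain ⟨i, j⟩ := p
    have hp' := hp
    unfold board at hp'
    rw [Finset.mem_product, Finset.mem_range, Finset.mem_range] at hp'
    rcases c4 i hp'.1 j hp'.2 with h | ⟨x, hx, h⟩
    · exact h
    · exfalso
      apply hd _ ((mem_D72 _).2 ⟨x, hx, rfl⟩)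
      rw [Finset.mem_insert, Finset.mem_singleton]
      exact h
  · intro hp
    refine ⟨(c3 p hp).1, ?_⟩
    intro d hd
    obtain ⟨x, hx, rfl⟩ := (mem_D72 d).1 hd
    rw [Finset.mem_insert, Finset.mem_singleton, not_or]
    exact (c3 p hp).2 x hx

theorem gun72 : IsGunport 16 14 D72 where
  domino d hd := by
    obtain ⟨x, hx, rfl⟩ := (mem_D72 d).1 hd
    obtain ⟨h1, h2, h3⟩ := c1 x hx
    exact ⟨x.1, h1, x.2, h2, h3, rfl⟩
  disj d hd e he hne := by
    obtain ⟨x, hx, rfl⟩ := (mem_D72 d).1 hd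
    obtain ⟨y, hy, rfl⟩ := (mem_D72 e).1 he
    rcases c2 x hx y hy with h | ⟨h1, h2, h3, h4⟩
    · exact absurd (by rw [h]) hne
    · rw [Finset.disjoint_left]
      intro z hz hz'
      rw [Finset.mem_insert, Finset.mem_singleton] at hz hz'
      rcases hz with rfl | rfl
      · rcases hz' with h | h
        · exact h1 h
        · exact h2 h
      · rcases hz' with h | h
        · exact h3 h
        · exact h4 h
  isolated p hp q hq := by
    rw [holes_eq, List.mem_toFinset] at hp hq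
    exact c5 p hp q hq

theorem attained : 72 ∈ holeCounts 16 14 := by
  refine ⟨D72, gun72, ?_⟩
  rw [holes_eq, List.toFinset_card_of_nodup c6.1, c6.2]

/-! ### from domino sets to letters -/

open Pool.Agent.R364.Gun (C Valid NN nn ind)

/-- letters of a domino set -/
noncomputable def letter (D : Finset (Finset (ℕ × ℕ))) (i j : ℕ) : C := by
  classical exact
    if ({(i, j), (i + 1, j)} : Finset (ℕ × ℕ)) ∈ D then C.t
    else if 1 ≤ i ∧ ({(i - 1, j), (i, j)} : Finset (ℕ × ℕ)) ∈ D then C.b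
    else if ({(i, j), (i, j + 1)} : Finset (ℕ × ℕ)) ∈ D then C.l
    else if 1 ≤ j ∧ ({(i, j - 1), (i, j)} : Finset (ℕ × ℕ)) ∈ D then C.r
    else C.o

section conv

variable {m n : ℕ} {D : Finset (Finset (ℕ × ℕ))}

theorem four (h : IsGunport m n D) {d : Finset (ℕ × ℕ)} (hd : d ∈ D) {i j : ℕ}
    (hij : (i, j) ∈ d) :
    d = {(i, j), (i + 1, j)} ∨ (1 ≤ i ∧ d = {(i - 1, j), (i, j)}) ∨ d = {(i, j), (i, j + 1)} ∨
      (1 ≤ j ∧ d = {(i, j - 1), (i, j)}) := by
  obtain ⟨p, _, q, _, hadj, rfl⟩ := h.domino d hd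
  obtain ⟨p1, p2⟩ := p
  obtain ⟨q1, q2⟩ := q
  rw [Finset.mem_insert, Finset.mem_singleton, Prod.mk.injEq, Prod.mk.injEq] at hij
  unfold Adj at hadj
  simp only at hadj
  rcases hij with ⟨rfl, rfl⟩ | ⟨rfl, rfl⟩
  · rcases hadj with ⟨rfl, h1 | h1⟩ | ⟨rfl, h1 | h1⟩
    · right; right; left; rw [h1]
    · right; right; right
      refine ⟨by omega, ?_⟩
      have : j - 1 = q2 := by omega
      rw [this, Finset.pair_comm]
    · left; rw [h1]
    · right; left
      refine ⟨by omega, ?_⟩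
      have : i - 1 = q1 := by omega
      rw [this, Finset.pair_comm]
  · rcases hadj with ⟨rfl, h1 | h1⟩ | ⟨rfl, h1 | h1⟩
    · right; right; right
      refine ⟨by omega, ?_⟩
      have : j - 1 = p2 := by omega
      rw [this]
    · right; right; left; rw [← h1, Finset.pair_comm]
    · right; left
      refine ⟨by omega, ?_⟩
      have : i - 1 = p1 := by omega
      rw [this]
    · left; rw [← h1, Finset.pair_comm]

theorem uniq (h : IsGunport m n D) {d e : Finset (ℕ × ℕ)} (hd : d ∈ D) (he : e ∈ D)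
    {p : ℕ × ℕ} (hpd : p ∈ d) (hpe : p ∈ e) : d = e := by
  by_contra hne
  exact Finset.disjoint_left.1 (h.disj d hd e he hne) hpd hpe

theorem T_range (h : IsGunport m n D) {i j : ℕ}
    (hT : ({(i, j), (i + 1, j)} : Finset (ℕ × ℕ)) ∈ D) : i + 1 < m ∧ j < n := by
  obtain ⟨p, hp, q, hq, _, he⟩ := h.domino _ hT
  have h1 : (i + 1, j) ∈ ({p, q} : Finset (ℕ × ℕ)) := by rw [← he]; simp
  rw [Finset.mem_insert, Finset.mem_singleton] at h1
  have : (i + 1, j) ∈ board m n := by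
    rcases h1 with h1 | h1
    · rw [h1]; exact hp
    · rw [h1]; exact hq
  unfold board at this
  rw [Finset.mem_product, Finset.mem_range, Finset.mem_range] at this
  exact this

theorem L_range (h : IsGunport m n D) {i j : ℕ}
    (hT : ({(i, j), (i, j + 1)} : Finset (ℕ × ℕ)) ∈ D) : i < m ∧ j + 1 < n := by
  obtain ⟨p, hp, q, hq, _, he⟩ := h.domino _ hT
  have h1 : (i, j + 1) ∈ ({p, q} : Finset (ℕ × ℕ)) := by rw [← he]; simp
  rw [Finset.mem_insert, Finset.mem_singleton] at h1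
  have : (i, j + 1) ∈ board m n := by
    rcases h1 with h1 | h1
    · rw [h1]; exact hp
    · rw [h1]; exact hq
  unfold board at this
  rw [Finset.mem_product, Finset.mem_range, Finset.mem_range] at this
  exact this

theorem exTB (h : IsGunport m n D) {i j : ℕ}
    (h1 : ({(i, j), (i + 1, j)} : Finset (ℕ × ℕ)) ∈ D)
    (h2 : 1 ≤ i ∧ ({(i - 1, j), (i, j)} : Finset (ℕ × ℕ)) ∈ D) : False := by
  have e := uniq h h1 h2.2 (p := (i, j)) (by simp) (by simp)
  have h3 : (i + 1, j) ∈ ({(i - 1, j), (i, j)} : Finset (ℕ × ℕ)) := by rw [← e]; simp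
  simp at h3
  omega

theorem exTL (h : IsGunport m n D) {i j : ℕ}
    (h1 : ({(i, j), (i + 1, j)} : Finset (ℕ × ℕ)) ∈ D)
    (h2 : ({(i, j), (i, j + 1)} : Finset (ℕ × ℕ)) ∈ D) : False := by
  have e := uniq h h1 h2 (p := (i, j)) (by simp) (by simp)
  have h3 : (i + 1, j) ∈ ({(i, j), (i, j + 1)} : Finset (ℕ × ℕ)) := by rw [← e]; simp
  simp at h3

theorem exTR (h : IsGunport m n D) {i j : ℕ}
    (h1 : ({(i, j), (i + 1, j)} : Finset (ℕ × ℕ)) ∈ D)
    (h2 : 1 ≤ j ∧ ({(i, j - 1), (i, j)} : Finset (ℕ × ℕ)) ∈ D) : False := by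
  have e := uniq h h1 h2.2 (p := (i, j)) (by simp) (by simp)
  have h3 : (i + 1, j) ∈ ({(i, j - 1), (i, j)} : Finset (ℕ × ℕ)) := by rw [← e]; simp
  simp at h3

theorem exBL (h : IsGunport m n D) {i j : ℕ}
    (h1 : 1 ≤ i ∧ ({(i - 1, j), (i, j)} : Finset (ℕ × ℕ)) ∈ D)
    (h2 : ({(i, j), (i, j + 1)} : Finset (ℕ × ℕ)) ∈ D) : False := by
  have e := uniq h h1.2 h2 (p := (i, j)) (by simp) (by simp)
  have h3 : (i - 1, j) ∈ ({(i, j), (i, j + 1)} : Finset (ℕ × ℕ)) := by rw [← e]; simp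
  simp at h3
  omega

theorem exBR (h : IsGunport m n D) {i j : ℕ}
    (h1 : 1 ≤ i ∧ ({(i - 1, j), (i, j)} : Finset (ℕ × ℕ)) ∈ D)
    (h2 : 1 ≤ j ∧ ({(i, j - 1), (i, j)} : Finset (ℕ × ℕ)) ∈ D) : False := by
  have e := uniq h h1.2 h2.2 (p := (i, j)) (by simp) (by simp)
  have h3 : (i - 1, j) ∈ ({(i, j - 1), (i, j)} : Finset (ℕ × ℕ)) := by rw [← e]; simp
  simp at h3
  omega

theorem exLR (h : IsGunport m n D) {i j : ℕ}
    (h1 : ({(i, j), (i, j + 1)} : Finset (ℕ × ℕ)) ∈ D)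
    (h2 : 1 ≤ j ∧ ({(i, j - 1), (i, j)} : Finset (ℕ × ℕ)) ∈ D) : False := by
  have e := uniq h h1 h2.2 (p := (i, j)) (by simp) (by simp)
  have h3 : (i, j + 1) ∈ ({(i, j - 1), (i, j)} : Finset (ℕ × ℕ)) := by rw [← e]; simp
  simp at h3
  omega

theorem let_t (h : IsGunport m n D) (i j : ℕ) :
    letter D i j = C.t ↔ ({(i, j), (i + 1, j)} : Finset (ℕ × ℕ)) ∈ D := by
  unfold letter
  split_ifs with h1 h2 h3 h4 <;> simp_all

theorem let_b (h : IsGunport m n D) (i j : ℕ) :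
    letter D i j = C.b ↔ (1 ≤ i ∧ ({(i - 1, j), (i, j)} : Finset (ℕ × ℕ)) ∈ D) := by
  unfold letter
  split_ifs with h1 h2 h3 h4
  · constructor
    · intro h'; exact absurd h' (by decide)
    · intro h'; exact (exTB h h1 h').elim
  · exact ⟨fun _ => h2, fun _ => rfl⟩
  · exact ⟨fun h' => absurd h' (by decide), fun h' => absurd h' h2⟩
  · exact ⟨fun h' => absurd h' (by decide), fun h' => absurd h' h2⟩
  · exact ⟨fun h' => absurd h' (by decide), fun h' => absurd h' h2⟩

theorem let_l (h : IsGunport m n D) (i j : ℕ) :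
    letter D i j = C.l ↔ ({(i, j), (i, j + 1)} : Finset (ℕ × ℕ)) ∈ D := by
  unfold letter
  split_ifs with h1 h2 h3 h4
  · exact ⟨fun h' => absurd h' (by decide), fun h' => (exTL h h1 h').elim⟩
  · exact ⟨fun h' => absurd h' (by decide), fun h' => (exBL h h2 h').elim⟩
  · exact ⟨fun _ => h3, fun _ => rfl⟩
  · exact ⟨fun h' => absurd h' (by decide), fun h' => absurd h' h3⟩
  · exact ⟨fun h' => absurd h' (by decide), fun h' => absurd h' h3⟩

theorem let_r (h : IsGunport m n D) (i j : ℕ) :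
    letter D i j = C.r ↔ (1 ≤ j ∧ ({(i, j - 1), (i, j)} : Finset (ℕ × ℕ)) ∈ D) := by
  unfold letter
  split_ifs with h1 h2 h3 h4
  · exact ⟨fun h' => absurd h' (by decide), fun h' => (exTR h h1 h').elim⟩
  · exact ⟨fun h' => absurd h' (by decide), fun h' => (exBR h h2 h').elim⟩
  · exact ⟨fun h' => absurd h' (by decide), fun h' => (exLR h h3 h').elim⟩
  · exact ⟨fun _ => h4, fun _ => rfl⟩
  · exact ⟨fun h' => absurd h' (by decide), fun h' => absurd h' h4⟩

theorem let_o (h : IsGunport m n D) (i j : ℕ) (hi : i < m) (hj : j < n) :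
    letter D i j = C.o ↔ (i, j) ∈ holes m n D := by
  constructor
  · intro ho
    unfold holes board
    rw [Finset.mem_filter, Finset.mem_product, Finset.mem_range, Finset.mem_range]
    refine ⟨⟨hi, hj⟩, ?_⟩
    intro d hd hij
    rcases four h hd hij with e | ⟨h1, e⟩ | e | ⟨h1, e⟩
    · rw [e] at hd
      have := (let_t h i j).2 hd
      rw [ho] at this; exact absurd this (by decide)
    · rw [e] at hd
      have := (let_b h i j).2 ⟨h1, hd⟩
      rw [ho] at this; exact absurd this (by decide)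
    · rw [e] at hd
      have := (let_l h i j).2 hd
      rw [ho] at this; exact absurd this (by decide)
    · rw [e] at hd
      have := (let_r h i j).2 ⟨h1, hd⟩
      rw [ho] at this; exact absurd this (by decide)
  · intro hh
    unfold holes at hh
    rw [Finset.mem_filter] at hh
    have hh2 := hh.2
    unfold letter
    rw [if_neg, if_neg, if_neg, if_neg]
    · rintro ⟨_, h1⟩; exact hh2 _ h1 (by simp)
    · intro h1; exact hh2 _ h1 (by simp)
    · rintro ⟨_, h1⟩; exact hh2 _ h1 (by simp)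
    · intro h1; exact hh2 _ h1 (by simp)

theorem let_w (i j : ℕ) : letter D i j ≠ C.w := by
  unfold letter
  split_ifs <;> simp

theorem letter_valid (h : IsGunport m n D) (hm : 1 ≤ m) (hn : 1 ≤ n) :
    Valid m n (letter D) where
  nw i j _ _ := let_w i j
  tb i j hi hj := by
    rw [let_t h, let_b h]
    simp
  lr i j hi hj := by
    rw [let_l h, let_r h]
    simp
  b0 j hj := by
    rw [Ne, let_b h]; omega
  tR j hj := by
    rw [Ne, let_t h]
    intro h1
    have := T_range h h1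
    omega
  r0 i hi := by
    rw [Ne, let_r h]; omega
  lW i hi := by
    rw [Ne, let_l h]
    intro h1
    have := L_range h h1
    omega
  vo i j hi hj := by
    rintro ⟨h1, h2⟩
    rw [let_o h i j (by omega) hj] at h1
    rw [let_o h (i + 1) j hi hj] at h2
    exact h.isolated _ h1 _ h2 (Or.inr ⟨rfl, Or.inl rfl⟩)
  ho i j hi hj := by
    rintro ⟨h1, h2⟩
    rw [let_o h i j hi (by omega)] at h1
    rw [let_o h i (j + 1) hi hj] at h2
    exact h.isolated _ h1 _ h2 (Or.inl ⟨rfl, Or.inl rfl⟩)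

theorem count_holes (h : IsGunport m n D) : (holes m n D).card = NN m n (letter D) C.o := by
  unfold NN nn ind
  have e : holes m n D = (Finset.range m ×ˢ Finset.range n).filter
      (fun p => letter D p.1 p.2 = C.o) := by
    ext ⟨i, j⟩
    rw [Finset.mem_filter, Finset.mem_product, Finset.mem_range, Finset.mem_range]
    constructor
    · intro hp
      have hb : (i, j) ∈ board m n := by
        unfold holes at hp; exact (Finset.mem_filter.1 hp).1
      unfold board at hb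
      rw [Finset.mem_product, Finset.mem_range, Finset.mem_range] at hb
      exact ⟨hb, (let_o h i j hb.1 hb.2).2 hp⟩
    · rintro ⟨hb, hp⟩
      exact (let_o h i j hb.1 hb.2).1 hp
  rw [e, Finset.card_filter, Finset.sum_product]

end conv

theorem upper {D : Finset (Finset (ℕ × ℕ))} (h : IsGunport 16 14 D) :
    (holes 16 14 D).card ≤ 72 := by
  have hv := letter_valid h (by norm_num) (by norm_num)
  rw [count_holes h]
  have h1 := Pool.Agent.R364.Gun.holes_le hv
  have h2 := Pool.Agent.R364.Gun.NN_tb hv (by norm_num)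
  have h3 := Pool.Agent.R364.Gun.NN_lr hv (by norm_num)
  have h4 := Pool.Agent.R364.Gun.NN_total hv
  omega

/-- **MP_290120_co, Q1 (negative answer).** On the `16 × 14` board the maximum number of holes is
`72`, while Pearce's formula gives `74`; so the formula fails. -/
theorem result :
    IsGreatest (holeCounts 16 14) 72 ∧ pearce 16 14 = 74 ∧
    ¬ (∀ m n : ℕ, 2 ≤ m → 2 ≤ n → ¬ 3 ∣ m → ¬ 3 ∣ n →
      IsGreatest (holeCounts m n) (pearce m n)) := by
  have h1 : IsGreatest (holeCounts 16 14) 72 := by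
    refine ⟨attained, ?_⟩
    rintro h ⟨D, hD, rfl⟩
    exact upper hD
  have h2 : pearce 16 14 = 74 := by decide
  refine ⟨h1, h2, ?_⟩
  intro hall
  have h3 := hall 16 14 (by norm_num) (by norm_num) (by norm_num) (by norm_num)
  rw [h2] at h3
  have := h3.unique h1
  norm_num at this

end Pool.Agent.Results.MP_290120_co.PearceFormulaFails
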